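import Pool.Agent.helper10.QT.SpecX

/-!
# Row bq:MM (MP_bf63dc_nt): the inequality of Moon and Moser for the number of 4-cliques
-/

set_option autoImplicit false

namespace Pool.Agent.AT

open Finset Pool.Agent.helper85.FC

section

variable {α : Type} (V : Finset α) (r : α → α → ℝ)

/-- the algebra at the end -/
theorem MM_alg (n N2 N3 N4 S : ℝ) (hn : 0 ≤ n) (hN4 : 0 ≤ N4) (hN2 : 0 ≤ N2)
    (h1 : 2 * N2 ^ 2 - n ^ 2 * N2 ≤ n * N3) (h2 : 3 * S ≤ n * N3 + 2 * N4)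
    (h3 : N3 ^ 2 ≤ N2 * S) : n ^ 2 * N2 ≤ 2 / 3 * n ^ 4 + 3 / 2 * N4 := by
  by_cases hc : N2 ≤ 2 / 3 * n ^ 2
  · have h4 : n ^ 2 * N2 ≤ n ^ 2 * (2 / 3 * n ^ 2) := mul_le_mul_of_nonneg_left hc (by positivity)
    nlinarith
  · have hc' : 2 / 3 * n ^ 2 < N2 := lt_of_not_ge hc
    have hN2pos : 0 < N2 := lt_of_le_of_lt (by positivity) hc'
    -- `2 N₂ N₄ ≥ N₃ (3 N₃ - n N₂)`
    have h4 : N3 * (3 * N3 - n * N2) ≤ 2 * N2 * N4 := by
      have h5 : N2 * (3 * S) ≤ N2 * (n * N3 + 2 * N4) := mul_le_mul_of_nonneg_left h2 hN2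
      nlinarith
    have h5 : N2 * (2 * N2 - n ^ 2) ≤ n * N3 := by nlinarith
    have h6 : 2 * N2 * (3 * N2 - 2 * n ^ 2) ≤ 3 * (n * N3) - n ^ 2 * N2 := by nlinarith
    have h7 : 0 ≤ 2 * N2 - n ^ 2 := by nlinarith [sq_nonneg n]
    have h8 : 0 ≤ 3 * N2 - 2 * n ^ 2 := by nlinarith
    have h9 : N2 * (2 * N2 - n ^ 2) * (2 * N2 * (3 * N2 - 2 * n ^ 2)) ≤
        (n * N3) * (3 * (n * N3) - n ^ 2 * N2) := by
      have h10 : 0 ≤ N2 * (2 * N2 - n ^ 2) := mul_nonneg hN2 h7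
      have h11 : 0 ≤ 2 * N2 * (3 * N2 - 2 * n ^ 2) := mul_nonneg (by linarith) h8
      exact mul_le_mul h5 h6 h11 (le_trans h10 h5)
    have h10 : (n * N3) * (3 * (n * N3) - n ^ 2 * N2) ≤ n ^ 2 * (2 * N2 * N4) := by
      have h11 : n ^ 2 * (N3 * (3 * N3 - n * N2)) ≤ n ^ 2 * (2 * N2 * N4) :=
        mul_le_mul_of_nonneg_left h4 (by positivity)
      calc _ = n ^ 2 * (N3 * (3 * N3 - n * N2)) := by ring
        _ ≤ _ := h11
    have h11 : (2 * N2 - n ^ 2) * (N2 * (3 * N2 - 2 * n ^ 2)) ≤ n ^ 2 * N4 := by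
      have h12 : (2 * N2) * ((2 * N2 - n ^ 2) * (N2 * (3 * N2 - 2 * n ^ 2))) ≤
          (2 * N2) * (n ^ 2 * N4) := by
        calc _ = N2 * (2 * N2 - n ^ 2) * (2 * N2 * (3 * N2 - 2 * n ^ 2)) := by ring
          _ ≤ n ^ 2 * (2 * N2 * N4) := le_trans h9 h10
          _ = _ := by ring
      exact le_of_mul_le_mul_left h12 (by linarith)
    have h12 : (1 / 3 * n ^ 2) * ((2 / 3 * n ^ 2) * (3 * N2 - 2 * n ^ 2)) ≤ n ^ 2 * N4 := by
      refine le_trans ?_ h11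
      apply mul_le_mul
      · nlinarith
      · exact mul_le_mul_of_nonneg_right hc'.le h8
      · exact mul_nonneg (by positivity) h8
      · exact h7
    rcases eq_or_lt_of_le hn with h0 | h0
    · rw [← h0]
      nlinarith
    · have h13 : n ^ 2 * (2 / 9 * n ^ 2 * (3 * N2 - 2 * n ^ 2)) ≤ n ^ 2 * N4 := by
        calc _ = (1 / 3 * n ^ 2) * ((2 / 3 * n ^ 2) * (3 * N2 - 2 * n ^ 2)) := by ring
          _ ≤ _ := h12
      have h14 := le_of_mul_le_mul_left h13 (by positivity)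
      nlinarith

theorem MM_two {a b : ℝ} (ha : a = 0 ∨ a = 1) (hb : b = 0 ∨ b = 1) : a + b - 1 ≤ a * b := by
  rcases ha with rfl | rfl <;> rcases hb with rfl | rfl <;> norm_num

theorem MM_three {a b c : ℝ} (ha : a = 0 ∨ a = 1) (hb : b = 0 ∨ b = 1) (hc : c = 0 ∨ c = 1) :
    a * b + a * c + b * c ≤ 1 + 2 * (a * b * c) := by
  rcases ha with rfl | rfl <;> rcases hb with rfl | rfl <;> rcases hc with rfl | rfl <;> norm_num

/-- step (1) -/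
theorem MM_step1 (h01 : ∀ x y, r x y = 0 ∨ r x y = 1) (hsym : ∀ x y, r x y = r y x) :
    2 * (∑ x ∈ V, ∑ y ∈ V, r x y) ^ 2 - (#V : ℝ) ^ 2 * (∑ x ∈ V, ∑ y ∈ V, r x y) ≤
      (#V : ℝ) * ∑ x ∈ V, ∑ y ∈ V, r x y * ∑ w ∈ V, r x w * r y w := by
  have hr0 : ∀ x y, 0 ≤ r x y := fun x y => by rcases h01 x y with h | h <;> rw [h] <;> norm_num
  have hc : ∀ x y, (∑ w ∈ V, r x w) + (∑ w ∈ V, r y w) - (#V : ℝ) ≤ ∑ w ∈ V, r x w * r y w := by
    intro x y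
    have : (∑ w ∈ V, r x w) + (∑ w ∈ V, r y w) - (#V : ℝ) = ∑ w ∈ V, (r x w + r y w - 1) := by
      rw [Finset.sum_sub_distrib, Finset.sum_add_distrib]
      simp
    rw [this]
    exact Finset.sum_le_sum (fun w _ => MM_two (h01 x w) (h01 y w))
  have h2 : ∑ x ∈ V, ∑ y ∈ V, r x y * ((∑ w ∈ V, r x w) + (∑ w ∈ V, r y w) - (#V : ℝ)) ≤
      ∑ x ∈ V, ∑ y ∈ V, r x y * ∑ w ∈ V, r x w * r y w :=
    Finset.sum_le_sum (fun x _ => Finset.sum_le_sum (fun y _ =>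
      mul_le_mul_of_nonneg_left (hc x y) (hr0 x y)))
  have h3 : ∑ x ∈ V, ∑ y ∈ V, r x y * ((∑ w ∈ V, r x w) + (∑ w ∈ V, r y w) - (#V : ℝ)) =
      2 * ∑ x ∈ V, (∑ w ∈ V, r x w) ^ 2 - (#V : ℝ) * ∑ x ∈ V, ∑ y ∈ V, r x y := by
    have e1 : ∑ x ∈ V, ∑ y ∈ V, r x y * (∑ w ∈ V, r x w) = ∑ x ∈ V, (∑ w ∈ V, r x w) ^ 2 := by
      refine Finset.sum_congr rfl (fun x _ => ?_)
      rw [← Finset.sum_mul, sq]
    have e2 : ∑ x ∈ V, ∑ y ∈ V, r x y * (∑ w ∈ V, r y w) = ∑ x ∈ V, (∑ w ∈ V, r x w) ^ 2 := by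
      rw [Finset.sum_comm, ← e1]
      refine Finset.sum_congr rfl (fun x _ => Finset.sum_congr rfl (fun y _ => ?_))
      rw [hsym y x]
    calc _ = ∑ x ∈ V, ∑ y ∈ V, (r x y * (∑ w ∈ V, r x w) + r x y * (∑ w ∈ V, r y w) -
          (#V : ℝ) * r x y) := by
          refine Finset.sum_congr rfl (fun x _ => Finset.sum_congr rfl (fun y _ => ?_))
          ring
      _ = _ := by
          have e3 : (#V : ℝ) * ∑ x ∈ V, ∑ y ∈ V, r x y = ∑ x ∈ V, ∑ y ∈ V, (#V : ℝ) * r x y := by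
            rw [Finset.mul_sum]
            exact Finset.sum_congr rfl (fun x _ => Finset.mul_sum _ _ _)
          rw [e3]
          simp only [Finset.sum_sub_distrib, Finset.sum_add_distrib]
          rw [e1, e2]
          ring
  have h4 : (∑ x ∈ V, ∑ y ∈ V, r x y) ^ 2 ≤ (#V : ℝ) * ∑ x ∈ V, (∑ w ∈ V, r x w) ^ 2 :=
    sq_sum_le_card_mul_sum_sq
  rw [h3] at h2
  have h5 := mul_le_mul_of_nonneg_left h2 (Nat.cast_nonneg (α := ℝ) #V)
  nlinarith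

/-- step (2) -/
theorem MM_step2 (h01 : ∀ x y, r x y = 0 ∨ r x y = 1) (hsym : ∀ x y, r x y = r y x) :
    3 * (∑ x ∈ V, ∑ y ∈ V, r x y * (∑ w ∈ V, r x w * r y w) ^ 2) ≤
      (#V : ℝ) * (∑ x ∈ V, ∑ y ∈ V, r x y * ∑ w ∈ V, r x w * r y w) +
      2 * ∑ x ∈ V, ∑ y ∈ V, ∑ z ∈ V, ∑ w ∈ V,
        r x y * (r x z * (r x w * (r y z * (r y w * r z w)))) := by
  have hr0 : ∀ x y, 0 ≤ r x y := fun x y => by rcases h01 x y with h | h <;> rw [h] <;> norm_num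
  -- pointwise
  have hp : ∀ x y z, (r x y * (r x z * r y z)) * ((∑ w ∈ V, r x w * r y w) +
      (∑ w ∈ V, r x w * r z w) + (∑ w ∈ V, r y w * r z w)) ≤
      (r x y * (r x z * r y z)) * ((#V : ℝ) + 2 * ∑ w ∈ V, r x w * r y w * r z w) := by
    intro x y z
    apply mul_le_mul_of_nonneg_left _ (mul_nonneg (hr0 x y) (mul_nonneg (hr0 x z) (hr0 y z)))
    have e1 : (#V : ℝ) + 2 * ∑ w ∈ V, r x w * r y w * r z w =
        ∑ w ∈ V, (1 + 2 * (r x w * r y w * r z w)) := by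
      rw [Finset.sum_add_distrib, Finset.mul_sum]
      simp
    rw [e1, ← Finset.sum_add_distrib, ← Finset.sum_add_distrib]
    exact Finset.sum_le_sum (fun w _ => MM_three (h01 x w) (h01 y w) (h01 z w))
  have hsum := Finset.sum_le_sum (fun x (_ : x ∈ V) => Finset.sum_le_sum (fun y (_ : y ∈ V) =>
    Finset.sum_le_sum (fun z (_ : z ∈ V) => hp x y z)))
  -- the left side
  have hL1 : ∑ x ∈ V, ∑ y ∈ V, ∑ z ∈ V, (r x y * (r x z * r y z)) * (∑ w ∈ V, r x w * r y w) =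
      ∑ x ∈ V, ∑ y ∈ V, r x y * (∑ w ∈ V, r x w * r y w) ^ 2 := by
    refine Finset.sum_congr rfl (fun x _ => Finset.sum_congr rfl (fun y _ => ?_))
    rw [← Finset.sum_mul, ← Finset.mul_sum, sq, mul_assoc]
  have hL2 : ∑ x ∈ V, ∑ y ∈ V, ∑ z ∈ V, (r x y * (r x z * r y z)) * (∑ w ∈ V, r x w * r z w) =
      ∑ x ∈ V, ∑ y ∈ V, r x y * (∑ w ∈ V, r x w * r y w) ^ 2 := by
    rw [← hL1]
    refine Finset.sum_congr rfl (fun x _ => ?_)
    rw [Finset.sum_comm]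
    refine Finset.sum_congr rfl (fun y _ => Finset.sum_congr rfl (fun z _ => ?_))
    rw [hsym z y]
    ring
  have hL3 : ∑ x ∈ V, ∑ y ∈ V, ∑ z ∈ V, (r x y * (r x z * r y z)) * (∑ w ∈ V, r y w * r z w) =
      ∑ x ∈ V, ∑ y ∈ V, r x y * (∑ w ∈ V, r x w * r y w) ^ 2 := by
    rw [← hL1, Finset.sum_comm]
    have e1 : ∀ y ∈ V, ∑ x ∈ V, ∑ z ∈ V, (r x y * (r x z * r y z)) * (∑ w ∈ V, r y w * r z w) =
        ∑ z ∈ V, ∑ x ∈ V, (r x y * (r x z * r y z)) * (∑ w ∈ V, r y w * r z w) :=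
      fun y _ => Finset.sum_comm
    rw [Finset.sum_congr rfl e1]
    refine Finset.sum_congr rfl (fun x _ => Finset.sum_congr rfl (fun y _ =>
      Finset.sum_congr rfl (fun z _ => ?_)))
    rw [hsym z x, hsym z y]
    ring
  have hL : ∑ x ∈ V, ∑ y ∈ V, ∑ z ∈ V, (r x y * (r x z * r y z)) * ((∑ w ∈ V, r x w * r y w) +
      (∑ w ∈ V, r x w * r z w) + (∑ w ∈ V, r y w * r z w)) =
      3 * (∑ x ∈ V, ∑ y ∈ V, r x y * (∑ w ∈ V, r x w * r y w) ^ 2) := by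
    simp only [mul_add, Finset.sum_add_distrib]
    rw [hL1, hL2, hL3]
    ring
  -- the right side
  have hR : ∑ x ∈ V, ∑ y ∈ V, ∑ z ∈ V, (r x y * (r x z * r y z)) *
      ((#V : ℝ) + 2 * ∑ w ∈ V, r x w * r y w * r z w) =
      (#V : ℝ) * (∑ x ∈ V, ∑ y ∈ V, r x y * ∑ w ∈ V, r x w * r y w) +
      2 * ∑ x ∈ V, ∑ y ∈ V, ∑ z ∈ V, ∑ w ∈ V,
        r x y * (r x z * (r x w * (r y z * (r y w * r z w)))) := by
    simp only [Finset.mul_sum, mul_add, Finset.sum_add_distrib]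
    refine congrArg₂ (· + ·) ?_ ?_
    · refine Finset.sum_congr rfl (fun x _ => Finset.sum_congr rfl (fun y _ =>
        Finset.sum_congr rfl (fun z _ => ?_)))
      ring
    · refine Finset.sum_congr rfl (fun x _ => Finset.sum_congr rfl (fun y _ =>
        Finset.sum_congr rfl (fun z _ => Finset.sum_congr rfl (fun w _ => ?_))))
      ring
  rw [hL, hR] at hsum
  exact hsum

/-- step (3), Cauchy-Schwarz -/
theorem MM_step3 (h01 : ∀ x y, r x y = 0 ∨ r x y = 1) :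
    (∑ x ∈ V, ∑ y ∈ V, r x y * ∑ w ∈ V, r x w * r y w) ^ 2 ≤
      (∑ x ∈ V, ∑ y ∈ V, r x y) *
        ∑ x ∈ V, ∑ y ∈ V, r x y * (∑ w ∈ V, r x w * r y w) ^ 2 := by
  have hsq : ∀ x y, r x y ^ 2 = r x y := fun x y => by
    rcases h01 x y with h | h <;> (rw [h]; norm_num)
  have h := Finset.sum_mul_sq_le_sq_mul_sq (V ×ˢ V) (fun p => r p.1 p.2)
    (fun p => r p.1 p.2 * ∑ w ∈ V, r p.1 w * r p.2 w)
  rw [Finset.sum_product, Finset.sum_product, Finset.sum_product] at h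
  have e1 : ∑ x ∈ V, ∑ y ∈ V, r x y * (r x y * ∑ w ∈ V, r x w * r y w) =
      ∑ x ∈ V, ∑ y ∈ V, r x y * ∑ w ∈ V, r x w * r y w := by
    refine Finset.sum_congr rfl (fun x _ => Finset.sum_congr rfl (fun y _ => ?_))
    rw [← mul_assoc, ← sq, hsq]
  have e2 : ∑ x ∈ V, ∑ y ∈ V, r x y ^ 2 = ∑ x ∈ V, ∑ y ∈ V, r x y :=
    Finset.sum_congr rfl (fun x _ => Finset.sum_congr rfl (fun y _ => hsq x y))
  have e3 : ∑ x ∈ V, ∑ y ∈ V, (r x y * ∑ w ∈ V, r x w * r y w) ^ 2 =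
      ∑ x ∈ V, ∑ y ∈ V, r x y * (∑ w ∈ V, r x w * r y w) ^ 2 :=
    Finset.sum_congr rfl (fun x _ => Finset.sum_congr rfl (fun y _ => by rw [mul_pow, hsq]))
  simp only [] at h
  rw [e1, e2, e3] at h
  exact h

end

open Classical in
theorem MM : MM_stmt := by
  intro α V R hR hirr
  set r : α → α → ℝ := fun x y => if R x y then 1 else 0 with hr
  have h01 : ∀ x y, r x y = 0 ∨ r x y = 1 := by
    intro x y
    simp only [hr]
    by_cases h : R x y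
    · right
      rw [if_pos h]
    · left
      rw [if_neg h]
  have hsym : ∀ x y, r x y = r y x := by
    intro x y
    simp only [hr]
    by_cases h : R x y
    · rw [if_pos h, if_pos (hR x y h)]
    · rw [if_neg h, if_neg (fun h' => h (hR y x h'))]
  have hr0 : ∀ x y, 0 ≤ r x y := fun x y => by rcases h01 x y with h | h <;> rw [h] <;> norm_num
  have hN2 : ((#{p ∈ V ×ˢ V | R p.1 p.2} : ℕ) : ℝ) = ∑ x ∈ V, ∑ y ∈ V, r x y := by
    rw [Finset.card_filter, Nat.cast_sum, Finset.sum_product]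
    refine Finset.sum_congr rfl (fun x _ => Finset.sum_congr rfl (fun y _ => ?_))
    simp only [hr]
    split_ifs <;> simp
  have hN4 : ((#{t ∈ V ×ˢ V ×ˢ V ×ˢ V | R t.1 t.2.1 ∧ R t.1 t.2.2.1 ∧ R t.1 t.2.2.2 ∧
      R t.2.1 t.2.2.1 ∧ R t.2.1 t.2.2.2 ∧ R t.2.2.1 t.2.2.2} : ℕ) : ℝ) =
      ∑ x ∈ V, ∑ y ∈ V, ∑ z ∈ V, ∑ w ∈ V,
        r x y * (r x z * (r x w * (r y z * (r y w * r z w)))) := by
    rw [Finset.card_filter, Nat.cast_sum, Finset.sum_product]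
    refine Finset.sum_congr rfl (fun x _ => ?_)
    rw [Finset.sum_product]
    refine Finset.sum_congr rfl (fun y _ => ?_)
    rw [Finset.sum_product]
    refine Finset.sum_congr rfl (fun z _ => Finset.sum_congr rfl (fun w _ => ?_))
    simp only [hr]
    by_cases a1 : R x y
    swap
    · simp [a1]
    by_cases a2 : R x z
    swap
    · simp [a2]
    by_cases a3 : R x w
    swap
    · simp [a3]
    by_cases a4 : R y z
    swap
    · simp [a4]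
    by_cases a5 : R y w
    swap
    · simp [a5]
    by_cases a6 : R z w
    swap
    · simp [a6]
    simp [a1, a2, a3, a4, a5, a6]
  rw [hN2, hN4]
  apply MM_alg _ _ (∑ x ∈ V, ∑ y ∈ V, r x y * ∑ w ∈ V, r x w * r y w) _
    (∑ x ∈ V, ∑ y ∈ V, r x y * (∑ w ∈ V, r x w * r y w) ^ 2) (Nat.cast_nonneg _)
  · exact Finset.sum_nonneg (fun x _ => Finset.sum_nonneg (fun y _ => Finset.sum_nonneg
      (fun z _ => Finset.sum_nonneg (fun w _ => mul_nonneg (hr0 _ _) (mul_nonneg (hr0 _ _)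
        (mul_nonneg (hr0 _ _) (mul_nonneg (hr0 _ _) (mul_nonneg (hr0 _ _) (hr0 _ _)))))))))
  · exact Finset.sum_nonneg (fun x _ => Finset.sum_nonneg (fun y _ => hr0 _ _))
  · exact MM_step1 V r h01 hsym
  · exact MM_step2 V r h01 hsym
  · exact MM_step3 V r h01

end Pool.Agent.AT
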